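import Pool.Agent.helper5.SYM.SpecA

set_option autoImplicit false

namespace Pool.Agent.SYM
open Finset CT Polynomial

theorem F12_cut_act {D : Type} [DecidableEq D] (A : Finset D) (e : D → D) (hA : Act A e)
    (x p q : D) (hx : e x ≠ x) (hp : e p = p) (hq : e q = q) (hpq : p ≠ q) :
    Act (insert p (insert q A)) (cut e x p q) := by
  obtain ⟨he, hA⟩ := hA
  have hxp : x ≠ p := fun h => hx (by rw [h]; exact hp)
  have hxq : x ≠ q := fun h => hx (by rw [h]; exact hq)
  have hexp : e x ≠ p := fun h => hxp (by rw [← he x, h, hp])
  have hexq : e x ≠ q := fun h => hxq (by rw [← he x, h, hq])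
  refine ⟨?_, ?_⟩
  · intro d
    unfold cut
    by_cases h1 : d = x
    · subst h1
      simp [hxp.symm]
    by_cases h2 : d = p
    · subst h2
      simp [h1]
    by_cases h3 : d = e x
    · subst h3
      simp [h1, h2, hxq.symm, hpq.symm, hexq.symm]
    by_cases h4 : d = q
    · subst h4
      simp [h1, h2, h3, hx, hexp]
    have h5 : e d ≠ x := fun h => h3 (by rw [← h, he])
    have h6 : e d ≠ p := fun h => h2 (by rw [← he d, h, hp])
    have h7 : e d ≠ e x := fun h => h1 (by rw [← he d, h, he])
    have h8 : e d ≠ q := fun h => h4 (by rw [← he d, h, hq])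
    simp [h1, h2, h3, h4, h5, h6, h7, h8, he]
  · intro d
    rw [mem_insert, mem_insert, ← hA d]
    unfold cut
    by_cases h1 : d = x
    · subst h1
      simp [hxp.symm, hx]
    by_cases h2 : d = p
    · subst h2
      simp [h1, hxp]
    by_cases h3 : d = e x
    · subst h3
      simp [h1, h2, hexq, hexq.symm, he, hx.symm]
    by_cases h4 : d = q
    · subst h4
      simp [h1, h2, h3, hexq]
    simp [h1, h2, h3, h4]

theorem F12_ind {D : Type} [DecidableEq D] (e : D → D) (he : ∀ d, e (e d) = d) (x : D)
    (hx : e x ≠ x) (α : D → ZMod 2) (hα : Vol e α) :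
    Vol e (fun d => α d + (if d = x ∨ d = e x then 1 else 0)) := by
  obtain ⟨h1, h2⟩ := hα
  have hneg : ∀ a : ZMod 2, -a = a := by decide
  refine ⟨?_, ?_⟩
  · intro d
    show α (e d) + (if e d = x ∨ e d = e x then 1 else 0) = -(α d + (if d = x ∨ d = e x then 1 else 0))
    rw [hneg, h1, hneg]
    have h3 : (e d = x ∨ e d = e x) ↔ (d = x ∨ d = e x) := by
      constructor
      · rintro (h | h)
        · right
          rw [← h, he]
        · left
          rw [← he d, h, he]
      · rintro (h | h)
        · right
          rw [h]
        · left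
          rw [h, he]
    simp only [h3]
  · intro d hd
    show α d + (if d = x ∨ d = e x then 1 else 0) = 0
    rw [h2 d hd, if_neg, add_zero]
    rintro (h | h)
    · rw [h] at hd
      exact hx hd
    · rw [h, he] at hd
      exact hx hd.symm

theorem F12 (hFAD : FAD_stmt) (hFON : FON_stmt) (hL4 : L4_stmt) : F12_stmt := by
  intro W _ L E e α p q hL hE hc2 hL2 hact hvol hpL hqL hpE hqE hpq
  have he := hact.1
  have hA := hact.2
  have hp : e p = p := by
    by_contra h
    have := (hA p).1 h
    rw [mem_union] at this
    rcases this with h1 | h1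
    · rw [dts, mem_product] at h1
      exact hpL (List.mem_toFinset.1 h1.1)
    · exact hpE h1
  have hq : e q = q := by
    by_contra h
    have := (hA q).1 h
    rw [mem_union] at this
    rcases this with h1 | h1
    · rw [dts, mem_product] at h1
      exact hqL (List.mem_toFinset.1 h1.1)
    · exact hqE h1
  have hu : ∀ u ∈ L, ∀ i, e (u, i) ≠ (u, i) := by
    intro u hu i
    rw [hA, mem_union]
    left
    rw [dts, mem_product]
    exact ⟨List.mem_toFinset.2 hu, mem_univ _⟩
  have hbeta : ∀ x, e x ≠ x → F1 L e (fun d => if d = x ∨ d = e x then 1 else 0) = 0 := by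
    intro x hx
    rw [hFON W L e x p q hL he hu hx hp hq hpq hpL hqL]
    refine hL4 W _ L (insert p (insert q E)) _ hL ?_ ?_ hL2 ?_
    · intro y hy
      rw [mem_insert, mem_insert] at hy
      rcases hy with rfl | rfl | hy
      · exact hpL
      · exact hqL
      · exact hE y hy
    · rw [card_insert_of_notMem, card_insert_of_notMem hqE, hc2]
      rw [mem_insert]
      rintro (h | h)
      · exact hpq h
      · exact hpE h
    · have := F12_cut_act _ e hact x p q hx hp hq hpq
      rw [union_insert, union_insert]
      exact this
  have hzero : F1 L e (fun _ => 0) = 0 := by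
    have h := hFAD W L e (fun _ => 0) (fun _ => 0)
    simp only [add_zero] at h
    have h2 : ∀ a : ZMod 2, a = a + a → a = 0 := by decide
    exact h2 _ h
  have hmain : ∀ (n : ℕ) (α : W × Fin 4 → ZMod 2), Vol e α →
      ((dts L.toFinset ∪ E).filter (fun d => α d ≠ 0)).card ≤ n → F1 L e α = 0 := by
    intro n
    induction n with
    | zero =>
      intro α hα hcard
      have h0 : α = fun _ => 0 := by
        funext d
        by_contra hd
        have h1 : e d ≠ d := fun h => hd (hα.2 d h)
        have h2 : d ∈ (dts L.toFinset ∪ E).filter (fun d => α d ≠ 0) :=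
          mem_filter.2 ⟨(hA d).1 h1, hd⟩
        have h3 := card_pos.2 ⟨d, h2⟩
        omega
      rw [h0]
      exact hzero
    | succ n ih =>
      intro α hα hcard
      by_cases h0 : ∀ d, α d = 0
      · have : α = fun _ => 0 := funext h0
        rw [this]
        exact hzero
      · push Not at h0
        obtain ⟨x, hx0⟩ := h0
        have hx : e x ≠ x := fun h => hx0 (hα.2 x h)
        have hone : ∀ a : ZMod 2, a ≠ 0 → a + 1 = 0 := by decide
        have htwo : ∀ a : ZMod 2, a + 1 + 1 = a := by decide
        have hv := F12_ind e he x hx α hα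
        have h1 : F1 L e (fun d => α d + (if d = x ∨ d = e x then 1 else 0)) = 0 := by
          refine ih _ hv ?_
          have hss : (dts L.toFinset ∪ E).filter
              (fun d => α d + (if d = x ∨ d = e x then 1 else 0) ≠ 0) ⊂
              (dts L.toFinset ∪ E).filter (fun d => α d ≠ 0) := by
            rw [ssubset_iff_of_subset]
            · refine ⟨x, mem_filter.2 ⟨(hA x).1 hx, hx0⟩, ?_⟩
              rw [mem_filter]
              rintro ⟨-, h⟩
              rw [if_pos (Or.inl rfl)] at h
              exact h (hone _ hx0)
            · intro d hd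
              rw [mem_filter] at hd ⊢
              refine ⟨hd.1, ?_⟩
              intro hd0
              apply hd.2
              have hnot : ¬ (d = x ∨ d = e x) := by
                rintro (h | h)
                · rw [h] at hd0
                  exact hx0 hd0
                · rw [h, hα.1] at hd0
                  exact hx0 (neg_eq_zero.1 hd0)
              rw [hd0, if_neg hnot, add_zero]
          have := card_lt_card hss
          omega
        have h2 := hFAD W L e (fun d => α d + (if d = x ∨ d = e x then 1 else 0))
          (fun d => if d = x ∨ d = e x then 1 else 0)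
        rw [h1, hbeta x hx, add_zero] at h2
        have h3 : (fun d => α d + (if d = x ∨ d = e x then 1 else 0) +
            (if d = x ∨ d = e x then 1 else 0)) = α := by
          funext d
          by_cases h4 : d = x ∨ d = e x
          · rw [if_pos h4]
            exact htwo _
          · rw [if_neg h4, add_zero, add_zero]
        rw [← h3]
        exact h2
  exact hmain _ α hvol le_rfl

end Pool.Agent.SYM
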